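import Pool.Agent.Y638.RF.NetZT
import Pool.Agent.Y638.RF.Prog
import Pool.Agent.Y638.RF.Sum

set_option autoImplicit false

/-! # Triangles of weight zero: programs which test real formulas -/

namespace Pool.Agent.R617.RFE

open Finset Pool.Agent.TH697.Row
open Pool.Agent.TH697.Form (IsProb)
open Pool.Agent.Y638.RF Pool.Agent.Y638.RF.ZT

variable {n c w : ℕ}

/-- the arithmetic -/
theorem arith {n c w l s : ℝ} (hn : 2048 ≤ n) (hc : 1 ≤ c) (hw : 1 ≤ w) (hl0 : 1 ≤ l)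
    (hl : 100 * l ≤ n) (hs : 0 ≤ s)
    (h : n ^ 2 * ((49 / 600 - 0) * n - 5 * l) ≤
      w * (3 + 12 * (5 * l) + 2 * (w - 1) * (c * l)) * s) :
    n ^ 3 ≤ 2100 * c * w ^ 2 * l * s := by
  have h1 : n / 32 ≤ (49 / 600 - 0) * n - 5 * l := by linarith
  have h2 : n ^ 2 * (n / 32) ≤ n ^ 2 * ((49 / 600 - 0) * n - 5 * l) :=
    mul_le_mul_of_nonneg_left h1 (by positivity)
  have h3 : w * (3 + 12 * (5 * l) + 2 * (w - 1) * (c * l)) ≤ 63 * c * w ^ 2 * l := by
    have h5 : 0 ≤ (w - 1) * (c * l) := mul_nonneg (by linarith) (by positivity)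
    have h6 : l ≤ c * l := by nlinarith
    calc w * (3 + 12 * (5 * l) + 2 * (w - 1) * (c * l)) ≤ w * (63 * c * w * l) := by
          apply mul_le_mul_of_nonneg_left _ (by linarith)
          have e : 63 * c * w * l = 63 * (c * l) + 63 * ((w - 1) * (c * l)) := by ring
          rw [e]
          linarith
      _ = _ := by ring
  have h4 := mul_le_mul_of_nonneg_right h3 hs
  have e1 : n ^ 2 * (n / 32) = n ^ 3 / 32 := by ring
  rw [e1] at h2
  have h5 : 0 ≤ c * w ^ 2 * l * s := by positivity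
  nlinarith

theorem pow_ge (L : ℕ) (hL : 11 ≤ L) : 100 * (L + 1) ≤ 2 ^ L := by
  induction L, hL using Nat.le_induction with
  | base => norm_num
  | succ L hL ih =>
    rw [pow_succ]
    omega

theorem logb_n (hn : 2048 ≤ n) : 100 * Real.logb 2 n ≤ n ∧ 1 ≤ Real.logb 2 n := by
  have hL : 11 ≤ Nat.log 2 n := Nat.le_log_of_pow_le (by norm_num) (by norm_num; exact hn)
  have h1 := Nat.lt_pow_succ_log_self (b := 2) (by norm_num) n
  have h2 := Nat.pow_log_le_self 2 (by omega : n ≠ 0)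
  have h3 := pow_ge _ hL
  have hn0 : (0 : ℝ) < n := by
    have : 0 < n := by omega
    exact_mod_cast this
  have h4 : Real.logb 2 (n : ℝ) ≤ Nat.log 2 n + 1 := by
    have h5 : (n : ℝ) ≤ (2 : ℝ) ^ (Nat.log 2 n + 1) := by exact_mod_cast h1.le
    have h6 := Real.logb_le_logb_of_le (by norm_num : (1 : ℝ) < 2) hn0 h5
    rw [Real.logb_pow, Real.logb_self_eq_one (by norm_num)] at h6
    push_cast at h6
    linarith
  have h5 : (100 : ℝ) * (Nat.log 2 n + 1) ≤ n := by exact_mod_cast h3.trans h2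
  refine ⟨by linarith, ?_⟩
  rw [Real.le_logb_iff_rpow_le (by norm_num) hn0, Real.rpow_one]
  have : (2 : ℕ) ≤ n := by omega
  exact_mod_cast this

theorem program_bound (hn : 2048 ≤ n) (hc : 1 ≤ c) (hw : 1 ≤ w) {Ω : Type} [Fintype Ω] (μ : Ω → ℝ)
    (hμ : IsProb μ) (s : ℕ)
    (B : Ω → Program (Fin 3 × Fin n × Fin n) (fun _ => ℤ) w (n ^ c) s)
    (hB : ApproximatesOn μ (fun ω => (B ω).eval) InRange zeroTri) :
    (n : ℝ) ^ 3 ≤ 2100 * c * w ^ 2 * Real.logb 2 n * s := by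
  classical
  have hw' : (1 : ℝ) ≤ w := by exact_mod_cast hw
  have hc' : (1 : ℝ) ≤ c := by exact_mod_cast hc
  have hs0 : (0 : ℝ) ≤ s := Nat.cast_nonneg s
  obtain ⟨hl, hl1⟩ := logb_n hn
  by_cases hsn : n ^ 3 ≤ s
  · have h1 : (n : ℝ) ^ 3 ≤ s := by exact_mod_cast hsn
    have h2 : (1 : ℝ) ≤ w ^ 2 := by nlinarith
    have h3 : (1 : ℝ) ≤ c * w ^ 2 := by nlinarith
    have h4 : (1 : ℝ) ≤ c * w ^ 2 * Real.logb 2 n := by nlinarith
    nlinarith
  have hM : 4 * n * (2 * s + 1) + 2 + s ≤ n ^ 5 := by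
    have h1 : s < n ^ 3 := by omega
    have h2 : 4 * n * (2 * s + 1) ≤ 4 * n * (2 * n ^ 3) := Nat.mul_le_mul_left _ (by omega)
    have h3 : 4 * n * (2 * n ^ 3) = 8 * n ^ 4 := by ring
    have h4 : n ^ 3 ≤ n ^ 4 := Nat.pow_le_pow_right (by omega) (by norm_num)
    have h5 : 2048 * n ^ 4 ≤ n ^ 5 := by
      calc 2048 * n ^ 4 ≤ n * n ^ 4 := Nat.mul_le_mul_right _ hn
        _ = n ^ 5 := by ring
    have h6 : 1 ≤ n ^ 4 := Nat.one_le_pow _ _ (by omega)
    omega
  have h := program_lower (D := fun _ : Fin 3 × Fin n × Fin n => ℤ) μ hμ s B InRange zeroTri hB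
    (Nat.one_le_pow _ _ (by omega)) hw n (n ^ 5) hM 0 (first n) (T := Fin n) asks_first
  rw [card_first, Fintype.card_fin] at h
  push_cast at h
  simp only [Real.logb_pow] at h
  push_cast at h
  exact arith (by exact_mod_cast hn) hc' hw' hl1 hl hs0 h

/-- the formula `1 - u ^ 2` for the weight `u` of the triangle -/
noncomputable def quad (n w q : ℕ) (p : Fin n × Fin n × Fin n) :
    Fml (Fin 3 × Fin n × Fin n) (fun _ => ℤ) w q :=
  .add (.const 1) (.mul
    (.add (.item (0, p.1, p.2.1) (fun d : ℤ => (d : ℝ)))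
      (.add (.item (1, p.2.1, p.2.2) (fun d : ℤ => (d : ℝ)))
        (.item (2, p.1, p.2.2) (fun d : ℤ => (d : ℝ)))))
    (.add (.item (0, p.1, p.2.1) (fun d : ℤ => -(d : ℝ)))
      (.add (.item (1, p.2.1, p.2.2) (fun d : ℤ => -(d : ℝ)))
        (.item (2, p.1, p.2.2) (fun d : ℤ => -(d : ℝ))))))

theorem quad_eval (w q : ℕ) (p : Fin n × Fin n × Fin n) (x : Fin 3 × Fin n × Fin n → ℤ) :
    0 < (quad n w q p).eval x ↔ x (0, p.1, p.2.1) + x (1, p.2.1, p.2.2) + x (2, p.1, p.2.2) = 0 := by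
  obtain ⟨y, hy⟩ : ∃ y : ℤ, y = x (0, p.1, p.2.1) + x (1, p.2.1, p.2.2) + x (2, p.1, p.2.2) :=
    ⟨_, rfl⟩
  have e1 : (quad n w q p).eval x = ((1 - y * y : ℤ) : ℝ) := by
    unfold quad
    simp only [Fml.eval]
    rw [hy]
    push_cast
    ring
  rw [e1, ← hy, Int.cast_pos]
  constructor
  · intro h
    by_contra h0
    have h3 : 1 ≤ y * y := by
      have := mul_self_pos.2 h0
      omega
    omega
  · rintro rfl
    norm_num

/-- exhaustive search -/
theorem upper (n w q : ℕ) : ∃ F : Fml (Fin 3 × Fin n × Fin n) (fun _ => ℤ) w q,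
    F.size = 6 * n ^ 3 ∧ ∀ x, F.accepts x = zeroTri x := by
  classical
  obtain ⟨F, h1, h2⟩ := exists_or (ι := Fin 3 × Fin n × Fin n) (D := fun _ => ℤ) (w := w) (q := q)
    (fun p : Fin n × Fin n × Fin n => Fml.pos (quad n w q p))
    (fun x p => x (0, p.1, p.2.1) + x (1, p.2.1, p.2.2) + x (2, p.1, p.2.2) = 0)
    (fun x p => by
      change (if 0 < (quad n w q p).eval x then (1 : ℝ) else 0) = 0 ∨
        (if 0 < (quad n w q p).eval x then (1 : ℝ) else 0) = 1
      split_ifs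
      · exact Or.inr rfl
      · exact Or.inl rfl)
    (fun x p => by
      change (if 0 < (quad n w q p).eval x then (1 : ℝ) else 0) = 1 ↔ _
      rw [← quad_eval w q p x]
      split_ifs with h
      · exact ⟨fun _ => h, fun _ => rfl⟩
      · exact ⟨fun h' => absurd h' zero_ne_one, fun h' => absurd h' h⟩)
    zeroTri (fun x => by
      unfold zeroTri
      rw [decide_eq_true_iff]
      constructor
      · rintro ⟨i, j, k, h⟩
        exact ⟨(i, j, k), h⟩
      · rintro ⟨p, h⟩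
        exact ⟨p.1, p.2.1, p.2.2, h⟩)
  refine ⟨F, ?_, h2⟩
  rw [h1]
  simp only [quad, Fml.size, sum_const, card_univ, Fintype.card_prod, Fintype.card_fin, smul_eq_mul]
  ring

end Pool.Agent.R617.RFE
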